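import Mathlib
import Pool.Agent.Helper96.FlowFinal

open Finset Polynomial

namespace Pool.Agent.Results.MP_84601c_co.FlowRootAboveSix

/-- A map f from the edges to the integers modulo k obeys Kirchhoff's law in the finite
multigraph whose edge e goes from the vertex src e to the vertex tgt e (loops and parallel
edges are allowed): at every vertex v, the sum of f over the edges entering v equals the sum
of f over the edges leaving v. -/
def IsFlow {n m : ℕ} (src tgt : Fin m → Fin n) (k : ℕ) (f : Fin m → ZMod k) : Prop :=
  ∀ v : Fin n, ∑ e ∈ univ.filter (fun e => tgt e = v), f e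
    = ∑ e ∈ univ.filter (fun e => src e = v), f e

/-- The number of nowhere-zero flows of the multigraph with values in the integers modulo k. -/
noncomputable def numFlows {n m : ℕ} (src tgt : Fin m → Fin n) (k : ℕ) : ℕ :=
  Nat.card {f : Fin m → ZMod k // (∀ e, f e ≠ 0) ∧ IsFlow src tgt k f}

/-- Q is the flow polynomial of the multigraph: its value at every integer k with 1 ≤ k is the
number of nowhere-zero flows modulo k. -/
def IsFlowPolynomial {n m : ℕ} (src tgt : Fin m → Fin n) (Q : ℤ[X]) : Prop :=
  ∀ k : ℕ, 1 ≤ k → Q.eval (k : ℤ) = (numFlows src tgt k : ℤ)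

/-- Sanity check: every finite multigraph has exactly one flow polynomial. -/
theorem existsUnique_flowPolynomial {n m : ℕ} (src tgt : Fin m → Fin n) :
    ∃! Q : ℤ[X], IsFlowPolynomial src tgt Q := by
  obtain ⟨Q, hQ⟩ := Pool.Agent.Helper96.Flow.exists_flowPoly src tgt
  refine ⟨Q, hQ, ?_⟩
  intro R hR
  apply Polynomial.eq_of_infinite_eval_eq
  apply Set.infinite_of_injective_forall_mem (f := fun M : ℕ => ((M + 1 : ℕ) : ℤ))
  · intro a b hab
    have hab' : ((a + 1 : ℕ) : ℤ) = ((b + 1 : ℕ) : ℤ) := hab
    have : a + 1 = b + 1 := by exact_mod_cast hab'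
    omega
  · intro M
    rw [Set.mem_ofPred_eq]
    exact (hR (M + 1) (by omega)).trans (hQ (M + 1) (by omega)).symm

/-- There is a finite multigraph whose flow polynomial is not identically zero and has a real
root greater than 6. -/
theorem result : ∃ (n m : ℕ) (src tgt : Fin m → Fin n) (Q : ℤ[X]),
    IsFlowPolynomial src tgt Q ∧ Q ≠ 0 ∧ ∃ x : ℝ, 6 < x ∧ aeval x Q = 0 :=
  Pool.Agent.Helper96.Flow.exists_multigraph

end Pool.Agent.Results.MP_84601c_co.FlowRootAboveSix
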